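import Pool.Agent.H236R2.HB.Main

set_option autoImplicit false

open Finset Pool.Agent.H273R2.Bent

namespace Pool.Agent.H236R2.HB

theorem HB.equiv {k : ℕ} {ι κ : Type} [Fintype ι] [DecidableEq ι] [Fintype κ] [DecidableEq κ]
    (h : HB k ι) (e : ι ≃ κ) : HB k κ := by
  obtain ⟨S, hS, hb⟩ := h
  refine ⟨S.map (Finset.mapEmbedding e.toEmbedding).toEmbedding, ?_, ?_⟩
  · intro s hs
    rw [mem_map] at hs
    obtain ⟨t, ht, rfl⟩ := hs
    show (t.map e.toEmbedding).card = _
    rw [card_map]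
    exact hS t ht
  · intro c
    have h1 := hb (fun i => c (e i))
    rw [← Fintype.card_congr e, ← h1]
    congr 1
    refine (Fintype.sum_equiv (Equiv.arrowCongr e.symm (Equiv.refl (ZMod 2))) _ _ fun x => ?_)
    congr 2
    · rw [sum_map]
      refine sum_congr rfl fun s _ => ?_
      show ∏ i ∈ s.map e.toEmbedding, x i = _
      rw [prod_map]
      rfl
    · rw [← e.sum_comp]
      rfl

theorem HB.sum {k : ℕ} {ι κ : Type} [Fintype ι] [DecidableEq ι] [Fintype κ] [DecidableEq κ]
    (hk : 0 < k) (h : HB k ι) (h' : HB k κ) : HB k (ι ⊕ κ) := by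
  obtain ⟨S, hS, hb⟩ := h
  obtain ⟨S', hS', hb'⟩ := h'
  let f : Finset ι ↪ Finset (ι ⊕ κ) := (Finset.mapEmbedding Function.Embedding.inl).toEmbedding
  let f' : Finset κ ↪ Finset (ι ⊕ κ) := (Finset.mapEmbedding Function.Embedding.inr).toEmbedding
  have hdj : Disjoint (S.map f) (S'.map f') := by
    rw [disjoint_left]
    intro s h1 h2
    rw [mem_map] at h1 h2
    obtain ⟨t, ht, rfl⟩ := h1
    obtain ⟨t', ht', h3⟩ := h2
    have h4 : t.card = k := hS t ht
    have h5 : t.Nonempty := card_pos.1 (by omega)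
    obtain ⟨i, hi⟩ := h5
    have h6 : (Sum.inl i : ι ⊕ κ) ∈ t.map Function.Embedding.inl := by
      rw [mem_map]; exact ⟨i, hi, rfl⟩
    have h7 : t'.map Function.Embedding.inr = t.map Function.Embedding.inl := h3
    rw [← h7, mem_map] at h6
    obtain ⟨j, -, hj⟩ := h6
    exact absurd hj (by simp)
  refine ⟨S.map f ∪ S'.map f', ?_, ?_⟩
  · intro s hs
    rw [mem_union, mem_map, mem_map] at hs
    rcases hs with ⟨t, ht, rfl⟩ | ⟨t, ht, rfl⟩
    · show (t.map _).card = _
      rw [card_map]; exact hS t ht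
    · show (t.map _).card = _
      rw [card_map]; exact hS' t ht
  · intro c
    have h1 := hb (fun i => c (Sum.inl i))
    have h2 := hb' (fun i => c (Sum.inr i))
    rw [Fintype.card_sum, pow_add, ← h1, ← h2, ← mul_pow]
    congr 1
    rw [Fintype.sum_mul_sum, ← Fintype.sum_prod_type']
    refine Fintype.sum_equiv (Equiv.sumArrowEquivProdArrow _ _ _) _ _ fun x => ?_
    rw [← chi_add, sum_union hdj, sum_map, sum_map, Fintype.sum_sum_type]
    congr 1
    have e1 : ∀ s : Finset ι, ∏ i ∈ f s, x i = ∏ i ∈ s, x (Sum.inl i) := by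
      intro s
      show ∏ i ∈ s.map Function.Embedding.inl, x i = _
      rw [prod_map]; rfl
    have e2 : ∀ s : Finset κ, ∏ i ∈ f' s, x i = ∏ i ∈ s, x (Sum.inr i) := by
      intro s
      show ∏ i ∈ s.map Function.Embedding.inr, x i = _
      rw [prod_map]; rfl
    simp only [e1, e2]
    simp only [Equiv.sumArrowEquivProdArrow_apply_fst, Equiv.sumArrowEquivProdArrow_apply_snd]
    ring

end Pool.Agent.H236R2.HB
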