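import Pool.Agent.H236R2.HB.Seed

set_option autoImplicit false

open Finset Pool.Agent.H273R2.Bent

namespace Pool.Agent.H236R2.HB

theorem gadgetW (k : ℕ) : ∃ W : ℕ, ∀ x ≤ k, ∃ φ : (Fin W → ZMod 2) → ZMod 2,
    (∀ v t, φ (fun j => v j + t) = φ v + t) ∧
    ∀ (ι : Type) [DecidableEq ι] (l : Fin W → (ι → ZMod 2) → ZMod 2) (A : Fin W → Finset ι),
      (∀ j, Hm (A j) 1 (l j)) → (∀ i j, i ≠ j → Disjoint (A i) (A j)) →
      Hm (univ.biUnion A) (2 ^ x) (fun x => φ (fun j => l j x)) := by
  choose w φ h1 h2 using gadget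
  refine ⟨(range (k + 1)).sup w, fun x hx => ?_⟩
  have hw : w x ≤ (range (k + 1)).sup w := Finset.le_sup (mem_range.2 (by omega))
  refine ⟨fun v => φ x (fun j => v (Fin.castLE hw j)), ?_, ?_⟩
  · intro v t
    have e2 : ∀ a : ZMod 2, a = 0 ∨ a = 1 := by decide
    rcases e2 t with rfl | rfl
    · simp
    · exact h1 x _
  · intro ι _ l A hl hA
    have h3 := h2 x ι (fun j => l (Fin.castLE hw j)) (fun j => A (Fin.castLE hw j))
      (fun j => hl _) (fun i j hij => hA _ _ fun h => hij (Fin.castLE_injective hw h))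
    refine h3.mono ?_
    refine biUnion_subset.2 fun j _ => subset_biUnion_of_mem A (mem_univ _)

section del
variable {m W : ℕ}

theorem del_ne_zero (hm : 2 * 3 ^ W < m) (a : Fin W) : del m W a ≠ 0 := by
  intro h
  rw [del] at h
  have ha := a.2
  have h2 : (3 : ZMod m) ^ ((a : ℕ) + 1) + 3 ^ 0 = 3 ^ 0 + 3 ^ 0 := by
    rw [pow_zero]; linear_combination h
  rcases sidon hm ha (Nat.zero_le _) (Nat.zero_le _) (Nat.zero_le _) h2 with h | h <;> omega

theorem del_inj (hm : 2 * 3 ^ W < m) {a b : Fin W} (h : del m W a = del m W b) : a = b := by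
  rw [del, del] at h
  have ha := a.2
  have hb := b.2
  have h2 : (3 : ZMod m) ^ ((a : ℕ) + 1) + 3 ^ 0 = 3 ^ ((b : ℕ) + 1) + 3 ^ 0 := by
    rw [pow_zero]; linear_combination h
  apply Fin.ext
  rcases sidon hm ha (Nat.zero_le _) hb (Nat.zero_le _) h2 with h | h <;> omega

theorem del_add_ne_zero (hm : 2 * 3 ^ W < m) (a b : Fin W) : del m W a + del m W b ≠ 0 := by
  intro h
  rw [del, del] at h
  have ha := a.2
  have hb := b.2
  have h2 : (3 : ZMod m) ^ ((a : ℕ) + 1) + 3 ^ ((b : ℕ) + 1) = 3 ^ 0 + 3 ^ 0 := by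
    rw [pow_zero]; linear_combination h
  rcases sidon hm ha hb (Nat.zero_le _) (Nat.zero_le _) h2 with h | h <;> omega

theorem del_add_ne (hm : 2 * 3 ^ W < m) (a b c : Fin W) :
    del m W a + del m W b ≠ del m W c := by
  intro h
  rw [del, del, del] at h
  have ha := a.2
  have hb := b.2
  have hc := c.2
  have h2 : (3 : ZMod m) ^ ((a : ℕ) + 1) + 3 ^ ((b : ℕ) + 1) = 3 ^ ((c : ℕ) + 1) + 3 ^ 0 := by
    rw [pow_zero]; linear_combination h
  rcases sidon hm ha hb hc (Nat.zero_le _) h2 with h | h <;> omega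

theorem del_sidon (hm : 2 * 3 ^ W < m) (a b c d : Fin W)
    (h : del m W a + del m W b = del m W c + del m W d) :
    (a = c ∧ b = d) ∨ (a = d ∧ b = c) := by
  rw [del, del, del, del] at h
  have ha := a.2
  have hb := b.2
  have hc := c.2
  have hd := d.2
  have h2 : (3 : ZMod m) ^ ((a : ℕ) + 1) + 3 ^ ((b : ℕ) + 1) =
      3 ^ ((c : ℕ) + 1) + 3 ^ ((d : ℕ) + 1) := by
    linear_combination h
  rcases sidon hm ha hb hc hd h2 with h | h
  · left; exact ⟨Fin.ext (by omega), Fin.ext (by omega)⟩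
  · right; exact ⟨Fin.ext (by omega), Fin.ext (by omega)⟩

end del

section construction

variable {k r : ℕ} (sd : Seed k r) (m W : ℕ) [NeZero m]

/-- the index type -/
abbrev VV (m r : ℕ) : Type := (ZMod m × Fin r) ⊕ (ZMod m × Fin r)

/-- the linear forms -/
def ddS (x : VV m r → ZMod 2) (p : ZMod m × Fin r) : ZMod 2 :=
  x (Sum.inr p) + (∑ l : Fin r, if p.2 ∈ sd.B l then x (Sum.inl (p.1, l)) else 0) +
    ∑ a : Fin W, x (Sum.inl (p.1 - del m W a, p.2))

open Classical in
/-- support of `d_p` -/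
noncomputable def sA (p : ZMod m × Fin r) : Finset (VV m r) :=
  univ.filter fun v => Sum.elim (fun q => (q.1 = p.1 ∧ p.2 ∈ sd.B q.2) ∨
    ∃ a : Fin W, q = (p.1 - del m W a, p.2)) (fun q => q = p) v

open Classical in
/-- support of `d_p + [p.2 ∈ B i] z_{p.1,i}` -/
noncomputable def sF (i : Fin r) (p : ZMod m × Fin r) : Finset (VV m r) :=
  univ.filter fun v => Sum.elim (fun q => (q.1 = p.1 ∧ p.2 ∈ sd.B q.2 ∧ q.2 ≠ i) ∨
    ∃ a : Fin W, q = (p.1 - del m W a, p.2)) (fun q => q = p) v

open Classical in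
/-- support of `d_{p + δ_a} + z_p` -/
noncomputable def sE (p : ZMod m × Fin r) (a : Fin W) : Finset (VV m r) :=
  univ.filter fun v => Sum.elim (fun q => (q.1 = p.1 + del m W a ∧ p.2 ∈ sd.B q.2) ∨
    ∃ b : Fin W, b ≠ a ∧ q = (p.1 + del m W a - del m W b, p.2))
      (fun q => q = (p.1 + del m W a, p.2)) v

theorem Hm.zero {ι : Type} [DecidableEq ι] {A : Finset ι} {k : ℕ} :
    Hm A k (fun _ => (0 : ZMod 2)) := Submodule.zero_mem _

theorem Hm.ite {ι : Type} [DecidableEq ι] {A : Finset ι} {i : ι} (P : Prop) [Decidable P]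
    (h : P → i ∈ A) : Hm A 1 (fun x => if P then x i else 0) := by
  split_ifs with hP
  · exact Hm.var (h hP)
  · exact Hm.zero

variable {m W}

theorem hm_A (p : ZMod m × Fin r) : Hm (sA sd m W p) 1 (fun x => ddS sd m W x p) := by
  refine ((Hm.var ?_).add (Hm.sum univ fun l _ => Hm.ite _ fun h => ?_)).add
    (Hm.sum univ fun a _ => Hm.var ?_)
  · simp [sA]
  · simp [sA, h]
  · simp [sA]

theorem hm_F (i : Fin r) (p : ZMod m × Fin r) : Hm (sF sd m W i p) 1
    (fun x => ddS sd m W x p + if p.2 ∈ sd.B i then x (Sum.inl (p.1, i)) else 0) := by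
  have e : (fun x : VV m r → ZMod 2 =>
      ddS sd m W x p + if p.2 ∈ sd.B i then x (Sum.inl (p.1, i)) else 0) =
      fun x => x (Sum.inr p) +
        (∑ l ∈ univ.erase i, if p.2 ∈ sd.B l then x (Sum.inl (p.1, l)) else 0) +
        ∑ a : Fin W, x (Sum.inl (p.1 - del m W a, p.2)) := by
    ext x
    rw [ddS, ← add_sum_erase univ _ (mem_univ i)]
    have h2 : ∀ a : ZMod 2, a + a = 0 := by decide
    have := h2 (if p.2 ∈ sd.B i then x (Sum.inl (p.1, i)) else 0)
    linear_combination this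
  rw [e]
  refine ((Hm.var ?_).add (Hm.sum _ fun l hl => Hm.ite _ fun h => ?_)).add
    (Hm.sum univ fun a _ => Hm.var ?_)
  · simp [sF]
  · have := (mem_erase.1 hl).1
    simp [sF, h, this]
  · simp [sF]

theorem hm_E (p : ZMod m × Fin r) (a : Fin W) : Hm (sE sd m W p a) 1
    (fun x => ddS sd m W x (p.1 + del m W a, p.2) + x (Sum.inl p)) := by
  have e : (fun x : VV m r → ZMod 2 =>
      ddS sd m W x (p.1 + del m W a, p.2) + x (Sum.inl p)) =
      fun x => x (Sum.inr (p.1 + del m W a, p.2)) +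
        (∑ l : Fin r, if p.2 ∈ sd.B l then x (Sum.inl (p.1 + del m W a, l)) else 0) +
        ∑ b ∈ univ.erase a, x (Sum.inl (p.1 + del m W a - del m W b, p.2)) := by
    ext x
    rw [ddS, ← add_sum_erase univ (fun b => x (Sum.inl (p.1 + del m W a - del m W b, p.2)))
      (mem_univ a), add_sub_cancel_right]
    have h2 : ∀ a : ZMod 2, a + a = 0 := by decide
    have := h2 (x (Sum.inl p))
    simp only [Prod.mk.eta]
    linear_combination this
  rw [e]
  refine ((Hm.var ?_).add (Hm.sum _ fun l hl => Hm.ite _ fun h => ?_)).add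
    (Hm.sum _ fun b hb => Hm.var ?_)
  · simp [sE]
  · simp [sE, h]
  · have := (mem_erase.1 hb).1
    simp only [sE, mem_filter, mem_univ, true_and, Sum.elim_inl]
    exact Or.inr ⟨b, this, rfl⟩

theorem disj_F (hm : 2 * 3 ^ W < m) (i : Fin r) (u : ZMod m) (j j' : Fin r) (hj : j ≠ j')
    (hB : ∀ l, l ≠ i → ¬ (j ∈ sd.B l ∧ j' ∈ sd.B l)) :
    Disjoint (sF sd m W i (u, j)) (sF sd m W i (u, j')) := by
  rw [disjoint_left]
  rintro (q | q) h1 h2
  · simp only [sF, mem_filter, mem_univ, true_and, Sum.elim_inl] at h1 h2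
    rcases h1 with ⟨h1, h1', h1''⟩ | ⟨a, h1⟩
    · rcases h2 with ⟨h2, h2', h2''⟩ | ⟨b, h2⟩
      · exact hB _ h1'' ⟨h1', h2'⟩
      · rw [h2] at h1
        have : del m W b = 0 := by simpa using h1
        exact del_ne_zero hm b this
    · rcases h2 with ⟨h2, h2', h2''⟩ | ⟨b, h2⟩
      · rw [h1] at h2
        have : del m W a = 0 := by simpa using h2
        exact del_ne_zero hm a this
      · rw [h1] at h2
        exact hj (congrArg Prod.snd h2)
  · simp only [sF, mem_filter, mem_univ, true_and, Sum.elim_inr] at h1 h2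
    rw [h1] at h2
    exact hj (congrArg Prod.snd h2)

theorem disj_z (hm : 2 * 3 ^ W < m) (i : Fin r) (u : ZMod m) (j : Fin r) :
    Disjoint ({Sum.inl (u, i)} : Finset (VV m r)) (sF sd m W i (u, j)) := by
  rw [disjoint_singleton_left]
  simp only [sF, mem_filter, mem_univ, true_and, Sum.elim_inl]
  rintro (h | ⟨a, h⟩)
  · simp at h
  · have : del m W a = 0 := by simpa using (congrArg Prod.fst h).symm
    exact del_ne_zero hm a this

theorem disj_A (hm : 2 * 3 ^ W < m) (u : ZMod m) (j j' : Fin r) (hj : j ≠ j')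
    (hB : ∀ l, ¬ (j ∈ sd.B l ∧ j' ∈ sd.B l)) :
    Disjoint (sA sd m W (u, j)) (sA sd m W (u, j')) := by
  rw [disjoint_left]
  rintro (q | q) h1 h2
  · simp only [sA, mem_filter, mem_univ, true_and, Sum.elim_inl] at h1 h2
    rcases h1 with ⟨h1, h1'⟩ | ⟨a, h1⟩
    · rcases h2 with ⟨h2, h2'⟩ | ⟨b, h2⟩
      · exact hB _ ⟨h1', h2'⟩
      · rw [h2] at h1
        have : del m W b = 0 := by simpa using h1
        exact del_ne_zero hm b this
    · rcases h2 with ⟨h2, h2'⟩ | ⟨b, h2⟩
      · rw [h1] at h2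
        have : del m W a = 0 := by simpa using h2
        exact del_ne_zero hm a this
      · rw [h1] at h2
        exact hj (congrArg Prod.snd h2)
  · simp only [sA, mem_filter, mem_univ, true_and, Sum.elim_inr] at h1 h2
    rw [h1] at h2
    exact hj (congrArg Prod.snd h2)

theorem disj_AE (hm : 2 * 3 ^ W < m) (u : ZMod m) (j i : Fin r) (a : Fin W) :
    Disjoint (sA sd m W (u, j)) (sE sd m W (u, i) a) := by
  rw [disjoint_left]
  rintro (q | q) h1 h2
  · simp only [sA, sE, mem_filter, mem_univ, true_and, Sum.elim_inl] at h1 h2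
    rcases h1 with ⟨h1, h1'⟩ | ⟨b, h1⟩
    · rcases h2 with ⟨h2, h2'⟩ | ⟨c, hc, h2⟩
      · rw [h1] at h2
        have : del m W a = 0 := by simpa using h2.symm
        exact del_ne_zero hm a this
      · rw [h2] at h1
        have : del m W c = del m W a := by
          have h3 : u + del m W a - del m W c = u := h1
          linear_combination (-1 : ZMod m) * h3
        exact hc (del_inj hm this)
    · rcases h2 with ⟨h2, h2'⟩ | ⟨c, hc, h2⟩
      · rw [h1] at h2
        have h3 : u - del m W b = u + del m W a := h2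
        exact del_add_ne_zero hm a b (by linear_combination (-1 : ZMod m) * h3)
      · rw [h1] at h2
        have h3 : u - del m W b = u + del m W a - del m W c := congrArg Prod.fst h2
        exact del_add_ne hm a b c (by linear_combination (-1 : ZMod m) * h3)
  · simp only [sA, sE, mem_filter, mem_univ, true_and, Sum.elim_inr] at h1 h2
    rw [h1] at h2
    have h3 : u = u + del m W a := congrArg Prod.fst h2
    exact del_ne_zero hm a (by simpa using h3.symm)

theorem disj_E (hm : 2 * 3 ^ W < m) (u : ZMod m) (i : Fin r) (a b : Fin W) (hab : a ≠ b) :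
    Disjoint (sE sd m W (u, i) a) (sE sd m W (u, i) b) := by
  rw [disjoint_left]
  rintro (q | q) h1 h2
  · simp only [sE, mem_filter, mem_univ, true_and, Sum.elim_inl] at h1 h2
    rcases h1 with ⟨h1, h1'⟩ | ⟨c, hc, h1⟩
    · rcases h2 with ⟨h2, h2'⟩ | ⟨d, hd, h2⟩
      · rw [h1] at h2
        exact hab (del_inj hm (by linear_combination h2))
      · rw [h2] at h1
        have h3 : u + del m W b - del m W d = u + del m W a := h1
        exact del_add_ne hm a d b (by linear_combination (-1 : ZMod m) * h3)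
    · rcases h2 with ⟨h2, h2'⟩ | ⟨d, hd, h2⟩
      · rw [h1] at h2
        have h3 : u + del m W a - del m W c = u + del m W b := h2
        exact del_add_ne hm b c a (by linear_combination (-1 : ZMod m) * h3)
      · rw [h1] at h2
        have h3 : u + del m W a - del m W c = u + del m W b - del m W d := congrArg Prod.fst h2
        rcases del_sidon hm a d b c (by linear_combination h3) with h | h
        · exact hab h.1
        · exact hc h.1.symm
  · simp only [sE, mem_filter, mem_univ, true_and, Sum.elim_inr] at h1 h2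
    rw [h1] at h2
    have h3 : u + del m W a = u + del m W b := congrArg Prod.fst h2
    exact hab (del_inj hm (by linear_combination h3))

end construction

theorem hb_of_seed {k r : ℕ} (sd : Seed k r) : ∃ N : ℕ, ∀ m : ℕ, N < m → ∀ _ : NeZero m,
    HB k (VV m r) := by
  obtain ⟨W, hW⟩ := gadgetW k
  refine ⟨2 * 3 ^ W, fun m hm _ => ?_⟩
  have hG : ∀ T : Finset (Fin r), ∃ φ : (Fin W → ZMod 2) → ZMod 2, ∀ i, T ∈ sd.G i →
      ((∀ v t, φ (fun j => v j + t) = φ v + t) ∧
      ∀ (l : Fin W → (VV m r → ZMod 2) → ZMod 2) (A : Fin W → Finset (VV m r)),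
      (∀ j, Hm (A j) 1 (l j)) → (∀ i j, i ≠ j → Disjoint (A i) (A j)) →
      Hm (univ.biUnion A) (k - T.card) (fun x => φ (fun j => l j x))) := by
    intro T
    by_cases h : ∃ x : ℕ, T.card + 2 ^ x = k
    · obtain ⟨x, hx⟩ := h
      have hxk : x ≤ k := by
        have : x < 2 ^ x := Nat.lt_two_pow_self
        omega
      obtain ⟨φ, h1, h2⟩ := hW x hxk
      have e : k - T.card = 2 ^ x := by
        rw [← hx, Nat.add_sub_cancel_left]
      rw [e]
      exact ⟨φ, fun _ _ => ⟨h1, fun l A hl hA => h2 _ l A hl hA⟩⟩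
    · exact ⟨fun _ => 0, fun i hi => absurd (sd.G_card i T hi) h⟩
  choose φ hφ using hG
  let D : (VV m r → ZMod 2) → ZMod m × Fin r → ZMod 2 := fun x => ddS sd m W x
  let F : (VV m r → ZMod 2) → ZMod 2 := fun x =>
    ∑ p : ZMod m × Fin r, ((∑ T ∈ sd.K p.2, x (Sum.inl p) * ∏ j ∈ T,
      (ddS sd m W x (p.1, j) + if j ∈ sd.B p.2 then x (Sum.inl (p.1, p.2)) else 0)) +
      ∑ T ∈ sd.G p.2, (∏ j ∈ T, ddS sd m W x (p.1, j)) *
        φ T (fun a => ddS sd m W x (p.1 + del m W a, p.2) + x (Sum.inl p)))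
  have hF : Hm univ k F := by
    refine Hm.sum univ fun p _ => (Hm.sum _ fun T hT => ?_).add (Hm.sum _ fun T hT => ?_)
    · have h1 : Hm {Sum.inl (p.1, p.2)} 1 (fun x : VV m r → ZMod 2 => x (Sum.inl (p.1, p.2))) :=
        Hm.var (mem_singleton_self _)
      have h2 := Hm.prod T (fun j => sF sd m W p.2 (p.1, j)) (fun j x => ddS sd m W x (p.1, j) +
        if j ∈ sd.B p.2 then x (Sum.inl (p.1, p.2)) else 0)
        (fun j _ => hm_F sd p.2 (p.1, j)) (fun j hj j' hj' hne => disj_F sd hm _ _ _ _ hne ?_)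
      · have h3 := h1.mul h2 ((disjoint_biUnion_right _ _ _).2 fun j _ => disj_z sd hm _ _ _)
        have e := sd.K_card p.2 T hT
        rw [add_comm] at e
        rw [e] at h3
        exact h3.mono (subset_univ _)
      · rintro l hl ⟨h4, h5⟩
        have h6 := sd.K_sp p.2 T hT l hl
        have h7 : ({j, j'} : Finset (Fin r)) ⊆ T ∩ sd.B l := by
          intro t ht
          rw [mem_insert, mem_singleton] at ht
          rcases ht with rfl | rfl
          · exact mem_inter.2 ⟨hj, h4⟩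
          · exact mem_inter.2 ⟨hj', h5⟩
        have h8 := card_le_card h7
        rw [card_pair hne] at h8
        omega
    · obtain ⟨-, hφ2⟩ := hφ T p.2 hT
      have h1 := hφ2 (fun a x => ddS sd m W x (p.1 + del m W a, p.2) + x (Sum.inl p))
        (fun a => sE sd m W (p.1, p.2) a) (fun a => hm_E sd p a)
        (fun a b hab => disj_E sd hm _ _ _ _ hab)
      have h2 := Hm.prod T (fun j => sA sd m W (p.1, j)) (fun j x => ddS sd m W x (p.1, j))
        (fun j _ => hm_A sd (p.1, j)) (fun j hj j' hj' hne => disj_A sd hm _ _ _ hne ?_)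
      · have h3 := h2.mul h1 (by
          rw [disjoint_biUnion_left]
          intro j _
          rw [disjoint_biUnion_right]
          intro a _
          exact disj_AE sd hm _ _ _ _)
        obtain ⟨x, hx⟩ := sd.G_card p.2 T hT
        have e : T.card + (k - T.card) = k := by
          rw [← hx, Nat.add_sub_cancel_left]
        rw [e] at h3
        exact h3.mono (subset_univ _)
      · rintro l ⟨h4, h5⟩
        have h6 := sd.G_sp p.2 T hT l
        have h7 : ({j, j'} : Finset (Fin r)) ⊆ T ∩ sd.B l := by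
          intro t ht
          rw [mem_insert, mem_singleton] at ht
          rcases ht with rfl | rfl
          · exact mem_inter.2 ⟨hj, h4⟩
          · exact mem_inter.2 ⟨hj', h5⟩
        have h8 := card_le_card h7
        rw [card_pair hne] at h8
        omega
  obtain ⟨S, hS, hFS⟩ := hF.exists_finset
  refine ⟨S, hS, fun c => ?_⟩
  -- the permutation
  let P : (ZMod m × Fin r → ZMod 2) → (ZMod m × Fin r → ZMod 2) := fun d p =>
    (∑ T ∈ sd.K p.2, ∏ j ∈ T, (d (p.1, j) + if j ∈ sd.B p.2 then 1 else 0)) +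
      ∑ T ∈ sd.G p.2, ∏ j ∈ T, d (p.1, j)
  have hP : Function.Bijective P := by
    rw [← Finite.injective_iff_bijective]
    intro d d' h
    ext ⟨u, i⟩
    have h1 : (fun i => d (u, i)) = fun i => d' (u, i) := by
      apply sd.bij.1
      ext i
      exact congrFun h (u, i)
    exact congrFun h1 i
  let h : (ZMod m × Fin r → ZMod 2) → ZMod 2 := fun d =>
    ∑ p : ZMod m × Fin r, ∑ T ∈ sd.G p.2, (∏ j ∈ T, d (p.1, j)) *
      φ T (fun a => d (p.1 + del m W a, p.2))
  let L : (ZMod m × Fin r → ZMod 2) →ₗ[ZMod 2] (ZMod m × Fin r → ZMod 2) :=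
    LinearMap.pi fun p => (∑ l : Fin r, if p.2 ∈ sd.B l then LinearMap.proj (p.1, l) else 0) +
      ∑ a : Fin W, LinearMap.proj (p.1 - del m W a, p.2)
  have hdd : ∀ x : VV m r → ZMod 2, ∀ p,
      ddS sd m W x p = ((fun i => x (Sum.inr i)) + L (fun i => x (Sum.inl i))) p := by
    intro x p
    have e : ∀ l : Fin r, ((if p.2 ∈ sd.B l then LinearMap.proj (p.1, l) else 0 :
        (ZMod m × Fin r → ZMod 2) →ₗ[ZMod 2] ZMod 2)) (fun i => x (Sum.inl i)) =
        if p.2 ∈ sd.B l then x (Sum.inl (p.1, l)) else 0 := by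
      intro l
      split_ifs <;> simp
    simp only [ddS, L, Pi.add_apply, LinearMap.pi_apply, LinearMap.add_apply,
      LinearMap.sum_apply, e, LinearMap.proj_apply]
    ring
  have hFh : ∀ x, F x = h ((fun i => x (Sum.inr i)) + L (fun i => x (Sum.inl i))) +
      ∑ i, x (Sum.inl i) * P ((fun i => x (Sum.inr i)) + L (fun i => x (Sum.inl i))) i := by
    intro x
    simp only [F, h, P, ← hdd]
    rw [← sum_add_distrib]
    refine sum_congr rfl fun p _ => ?_
    have e1 : ∑ T ∈ sd.K p.2, x (Sum.inl p) * ∏ j ∈ T,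
        (ddS sd m W x (p.1, j) + if j ∈ sd.B p.2 then x (Sum.inl (p.1, p.2)) else 0) =
        x (Sum.inl p) * ∑ T ∈ sd.K p.2, ∏ j ∈ T,
          (ddS sd m W x (p.1, j) + if j ∈ sd.B p.2 then 1 else 0) := by
      rw [mul_sum]
      have h2 : ∀ a : ZMod 2, a = 0 ∨ a = 1 := by decide
      refine sum_congr rfl fun T _ => ?_
      simp only [Prod.mk.eta]
      rcases h2 (x (Sum.inl p)) with h | h
      · rw [h]; simp
      · rw [h]
    have e2 : ∑ T ∈ sd.G p.2, (∏ j ∈ T, ddS sd m W x (p.1, j)) *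
        φ T (fun a => ddS sd m W x (p.1 + del m W a, p.2) + x (Sum.inl p)) =
        (∑ T ∈ sd.G p.2, (∏ j ∈ T, ddS sd m W x (p.1, j)) *
          φ T (fun a => ddS sd m W x (p.1 + del m W a, p.2))) +
        x (Sum.inl p) * ∑ T ∈ sd.G p.2, ∏ j ∈ T, ddS sd m W x (p.1, j) := by
      rw [mul_sum, ← sum_add_distrib]
      refine sum_congr rfl fun T hT => ?_
      rw [(hφ T p.2 hT).1]
      ring
    rw [e1, e2]
    ring
  have hmm := mmP h P hP L (fun i => c (Sum.inl i)) (fun i => c (Sum.inr i))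
  have hc : Fintype.card (VV m r) = 2 * Fintype.card (ZMod m × Fin r) := by
    rw [Fintype.card_sum]; ring
  rw [hc, ← hmm]
  congr 1
  refine Fintype.sum_equiv (Equiv.sumArrowEquivProdArrow _ _ _) _ _ fun x => ?_
  rw [← hFS, hFh, Fintype.sum_sum_type]
  rfl

end Pool.Agent.H236R2.HB
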