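import Pool.Agent.H273R2.Bent.Basic

set_option autoImplicit false

open Finset Pool.Agent.H273R2.Bent

namespace Pool.Agent.H236R2.HB

/-- there is a bent function on `ι` which is homogeneous of degree `k` -/
def HB (k : ℕ) (ι : Type) [Fintype ι] [DecidableEq ι] : Prop :=
  ∃ S : Finset (Finset ι), (∀ s ∈ S, s.card = k) ∧
    ∀ c : ι → ZMod 2, (∑ x : ι → ZMod 2,
      chi ((∑ s ∈ S, ∏ i ∈ s, x i) + ∑ i, c i * x i)) ^ 2 = 2 ^ Fintype.card ι

/-- Maiorana-McFarland with a permutation `P` -/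
theorem mmP {M : Type} [Fintype M] [DecidableEq M] (h : (M → ZMod 2) → ZMod 2)
    (P : (M → ZMod 2) → (M → ZMod 2)) (hP : Function.Bijective P)
    (L : (M → ZMod 2) →ₗ[ZMod 2] (M → ZMod 2)) (α β : M → ZMod 2) :
    (∑ p : (M → ZMod 2) × (M → ZMod 2), chi (h (p.2 + L p.1) + ∑ i, p.1 i * P (p.2 + L p.1) i +
      (∑ i, α i * p.1 i + ∑ i, β i * p.2 i))) ^ 2 = 2 ^ (2 * Fintype.card M) := by
  obtain ⟨γ, hγ⟩ : ∃ γ : M → ZMod 2, ∀ z, ∑ i, β i * L z i = ∑ i, z i * γ i := by
    let ψ : (M → ZMod 2) →ₗ[ZMod 2] ZMod 2 := ∑ i, β i • (LinearMap.proj i).comp L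
    refine ⟨fun i => ψ (fun j => if i = j then 1 else 0), fun z => ?_⟩
    have := LinearMap.pi_apply_eq_sum_univ ψ z
    simp only [smul_eq_mul] at this
    rw [← this]
    simp [ψ]
  let E : (M → ZMod 2) × (M → ZMod 2) ≃ (M → ZMod 2) × (M → ZMod 2) :=
    { toFun := fun p => (p.1, p.2 + L p.1)
      invFun := fun p => (p.1, p.2 - L p.1)
      left_inv := fun p => by simp
      right_inv := fun p => by simp }
  have key : ∀ p : (M → ZMod 2) × (M → ZMod 2), chi (h (p.2 + L p.1) +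
      ∑ i, p.1 i * P (p.2 + L p.1) i + (∑ i, α i * p.1 i + ∑ i, β i * p.2 i)) =
      (fun q : (M → ZMod 2) × (M → ZMod 2) => chi (h q.2 + ∑ i, β i * q.2 i) *
        chi (∑ i, q.1 i * (P q.2 i + (α i + γ i)))) (E p) := by
    intro p
    show _ = chi (h (p.2 + L p.1) + ∑ i, β i * (p.2 + L p.1) i) *
        chi (∑ i, p.1 i * (P (p.2 + L p.1) i + (α i + γ i)))
    rw [← chi_add]
    congr 1
    have e1 : ∑ i, β i * (p.2 + L p.1) i = ∑ i, β i * p.2 i + ∑ i, p.1 i * γ i := by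
      rw [← hγ, ← sum_add_distrib]
      exact sum_congr rfl fun i _ => by simp [mul_add]
    have e2 : ∑ i, p.1 i * (P (p.2 + L p.1) i + (α i + γ i)) =
        ∑ i, p.1 i * P (p.2 + L p.1) i + (∑ i, α i * p.1 i + ∑ i, p.1 i * γ i) := by
      rw [← sum_add_distrib, ← sum_add_distrib]
      exact sum_congr rfl fun i _ => by ring
    rw [e1, e2]
    have h2 : ∀ a : ZMod 2, a + a = 0 := by decide
    have := h2 (∑ i, p.1 i * γ i)
    linear_combination (-1 : ZMod 2) * this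
  rw [Fintype.sum_congr _ _ key, E.sum_comp
    (fun q : (M → ZMod 2) × (M → ZMod 2) => chi (h q.2 + ∑ i, β i * q.2 i) *
        chi (∑ i, q.1 i * (P q.2 i + (α i + γ i)))), Fintype.sum_prod_type_right]
  simp only [← mul_sum]
  obtain ⟨d0, hd0⟩ := hP.2 (α + γ)
  have h3 : ∀ d : M → ZMod 2, ∑ z : M → ZMod 2, chi (∑ i, z i * (P d i + (α i + γ i))) =
      if d = d0 then 2 ^ Fintype.card M else 0 := by
    intro d
    have := sum_lin (fun i => P d i + (α i + γ i))
    rw [this]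
    have e : ((fun i => P d i + (α i + γ i)) = 0) ↔ d = d0 := by
      have h4 : ∀ a b : ZMod 2, a + b = 0 ↔ a = b := by decide
      have h5 : ((fun i => P d i + (α i + γ i)) = 0) ↔ P d = α + γ := by
        rw [funext_iff, funext_iff]
        exact forall_congr' fun i => h4 _ _
      rw [h5, ← hd0]
      exact hP.1.eq_iff
    simp only [e]
  simp only [h3]
  simp only [mul_ite, mul_zero, sum_ite_eq', mem_univ, if_true]
  rw [mul_pow, chi_sq, one_mul, ← pow_mul, mul_comm]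

/-- products of functions with disjoint supports -/
theorem Hm.prod {ι κ : Type} [DecidableEq ι] [DecidableEq κ] (T : Finset κ)
    (A : κ → Finset ι) (f : κ → (ι → ZMod 2) → ZMod 2)
    (hf : ∀ t ∈ T, Hm (A t) 1 (f t))
    (hd : ∀ t ∈ T, ∀ t' ∈ T, t ≠ t' → Disjoint (A t) (A t')) :
    Hm (T.biUnion A) T.card (fun x => ∏ t ∈ T, f t x) := by
  induction T using Finset.induction_on with
  | empty =>
    simp only [biUnion_empty, card_empty, prod_empty]
    refine Submodule.subset_span ⟨⟨∅, by simp, rfl⟩, ?_⟩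
    ext x
    simp
  | insert a T ha ih =>
    have h1 := ih (fun t ht => hf t (mem_insert_of_mem ht))
      (fun t ht t' ht' => hd t (mem_insert_of_mem ht) t' (mem_insert_of_mem ht'))
    have h2 := hf a (mem_insert_self _ _)
    have h3 : Disjoint (A a) (T.biUnion A) := by
      rw [disjoint_biUnion_right]
      intro t ht
      exact hd a (mem_insert_self _ _) t (mem_insert_of_mem ht) (fun h => ha (h ▸ ht))
    have h4 := h2.mul h1 h3
    rw [biUnion_insert, card_insert_of_notMem ha, add_comm T.card 1]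
    have e : (fun x : ι → ZMod 2 => ∏ t ∈ insert a T, f t x) =
        fun x => f a x * ∏ t ∈ T, f t x := by
      ext x
      rw [prod_insert ha]
    rw [e]
    exact h4

/-- a seed of degree `k` -/
structure Seed (k r : ℕ) where
  B : Fin r → Finset (Fin r)
  K : Fin r → Finset (Finset (Fin r))
  G : Fin r → Finset (Finset (Fin r))
  K_card : ∀ i, ∀ T ∈ K i, T.card + 1 = k
  K_sp : ∀ i, ∀ T ∈ K i, ∀ l, l ≠ i → (T ∩ B l).card ≤ 1
  G_card : ∀ i, ∀ T ∈ G i, ∃ x : ℕ, T.card + 2 ^ x = k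
  G_sp : ∀ i, ∀ T ∈ G i, ∀ l, (T ∩ B l).card ≤ 1
  bij : Function.Bijective (fun d : Fin r → ZMod 2 => fun i : Fin r =>
    (∑ T ∈ K i, ∏ j ∈ T, (d j + if j ∈ B i then 1 else 0)) + ∑ T ∈ G i, ∏ j ∈ T, d j)

end Pool.Agent.H236R2.HB
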