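import Pool.Agent.H236R2.HB.Main

set_option autoImplicit false
set_option maxRecDepth 100000

open Finset

namespace Pool.Agent.H236R2.HB

def s6B : Fin 6 → Finset (Fin 6) := ![{0, 3}, {1, 4}, {2, 5}, {0, 4}, {1, 5}, {2, 3}]

def s6K : Fin 6 → Finset (Finset (Fin 6)) :=
  ![{{0, 1, 3}, {3, 4, 5}}, 
    {{1, 2, 4}, {3, 4, 5}}, 
    {{0, 2, 5}, {3, 4, 5}}, 
    {{0, 4, 5}}, 
    {{1, 3, 5}}, 
    {{2, 3, 4}}]

def s6G : Fin 6 → Finset (Finset (Fin 6)) :=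
  ![{{1, 3}, {0, 5}, {4, 5}}, 
    {{2, 4}, {1, 3}, {3, 5}}, 
    {{0, 5}, {2, 4}, {3, 4}}, 
    {{0, 1}, {4, 5}}, 
    {{1, 2}, {3, 5}}, 
    {{0, 2}, {3, 4}}]

def s6T : List ℕ := [0, 2, 4, 10, 1, 33, 20, 63, 32, 34, 36, 46, 3, 35, 52, 11, 8, 6, 12, 14, 9, 41, 29, 22, 40, 38, 44, 42, 61, 31, 43, 54, 16, 18, 5, 26, 17, 51, 21, 37, 48, 50, 62, 53, 19, 49, 47, 27, 24, 59, 13, 55, 25, 30, 28, 45, 7, 60, 57, 15, 58, 39, 23, 56]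


/-- encoding of a point -/
def enc6 (d : Fin 6 → ZMod 2) : ℕ := ∑ i : Fin 6, (d i).val * 2 ^ (i : ℕ)

/-- decoding of a point -/
def dec6 (n : ℕ) : Fin 6 → ZMod 2 := fun i => if n.testBit i then 1 else 0

/-- the permutation -/
def s6P (d : Fin 6 → ZMod 2) (i : Fin 6) : ZMod 2 :=
  (∑ T ∈ s6K i, ∏ j ∈ T, (d j + if j ∈ s6B i then 1 else 0)) + ∑ T ∈ s6G i, ∏ j ∈ T, d j

theorem s6_inv : ∀ d : Fin 6 → ZMod 2, dec6 (s6T.getD (enc6 (s6P d)) 0) = d := by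
  decide +kernel

theorem s6_bij : Function.Bijective s6P := by
  rw [← Finite.injective_iff_bijective]
  intro d d' h
  rw [← s6_inv d, ← s6_inv d', h]

/-- a seed of degree 4 -/
def s6 : Seed 4 6 where
  B := s6B
  K := s6K
  G := s6G
  K_card := by decide +kernel
  K_sp := by decide +kernel
  G_card := by
    have h : ∀ i, ∀ T ∈ s6G i, T.card = 2 := by decide +kernel
    intro i T hT
    exact ⟨1, by rw [h i T hT]; norm_num⟩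
  G_sp := by decide +kernel
  bij := s6_bij

def s7B : Fin 7 → Finset (Fin 7) := ![{0, 1}, {1, 2}, {2, 3}, {3, 4}, {4, 5}, {5, 6}, {0, 6}]

def s7K : Fin 7 → Finset (Finset (Fin 7)) :=
  ![{{0, 1, 3}, {0, 1, 4}, {0, 2, 4}}, 
    {{1, 2, 4}, {1, 2, 5}, {1, 3, 5}}, 
    {{2, 3, 5}, {2, 3, 6}, {2, 4, 6}}, 
    {{3, 4, 6}, {0, 3, 4}, {0, 3, 5}}, 
    {{0, 4, 5}, {1, 4, 5}, {1, 4, 6}}, 
    {{1, 5, 6}, {2, 5, 6}, {0, 2, 5}}, 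
    {{0, 2, 6}, {0, 3, 6}, {1, 3, 6}}]

def s7G : Fin 7 → Finset (Finset (Fin 7)) :=
  ![{{0, 2}, {1, 4}, {0, 5}, {2, 5}, {3, 5}}, 
    {{1, 3}, {2, 5}, {1, 6}, {3, 6}, {4, 6}}, 
    {{2, 4}, {3, 6}, {0, 2}, {0, 4}, {0, 5}}, 
    {{3, 5}, {0, 4}, {1, 3}, {1, 5}, {1, 6}}, 
    {{4, 6}, {1, 5}, {2, 4}, {2, 6}, {0, 2}}, 
    {{0, 5}, {2, 6}, {3, 5}, {0, 3}, {1, 3}}, 
    {{1, 6}, {0, 3}, {4, 6}, {1, 4}, {2, 4}}]

def s7T : List ℕ := [0, 117, 107, 16, 87, 48, 32, 72, 47, 123, 96, 101, 64, 5, 17, 85, 94, 63, 119, 79, 65, 69, 75, 52, 1, 124, 10, 42, 34, 91, 43, 108, 61, 12, 126, 33, 111, 49, 31, 118, 3, 44, 11, 39, 23, 29, 104, 97, 2, 92, 121, 37, 20, 116, 84, 76, 68, 35, 55, 100, 86, 7, 89, 15, 122, 8, 24, 36, 125, 114, 66, 106, 95, 103, 98, 26, 62, 21, 109, 54, 6, 80, 88, 59, 22, 83, 78, 112, 46, 82, 58, 38, 81, 50, 67, 71, 4, 18, 57, 53, 115,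 13, 74, 27, 40, 93, 105, 56, 41, 19, 25, 99, 9, 90, 70, 77, 110, 28, 73, 113, 45, 102, 14, 120, 51, 60, 30, 127]


/-- encoding of a point -/
def enc7 (d : Fin 7 → ZMod 2) : ℕ := ∑ i : Fin 7, (d i).val * 2 ^ (i : ℕ)

/-- decoding of a point -/
def dec7 (n : ℕ) : Fin 7 → ZMod 2 := fun i => if n.testBit i then 1 else 0

/-- the permutation -/
def s7P (d : Fin 7 → ZMod 2) (i : Fin 7) : ZMod 2 :=
  (∑ T ∈ s7K i, ∏ j ∈ T, (d j + if j ∈ s7B i then 1 else 0)) + ∑ T ∈ s7G i, ∏ j ∈ T, d j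

theorem s7_inv : ∀ d : Fin 7 → ZMod 2, dec7 (s7T.getD (enc7 (s7P d)) 0) = d := by
  decide +kernel

theorem s7_bij : Function.Bijective s7P := by
  rw [← Finite.injective_iff_bijective]
  intro d d' h
  rw [← s7_inv d, ← s7_inv d', h]

/-- a seed of degree 4 -/
def s7 : Seed 4 7 where
  B := s7B
  K := s7K
  G := s7G
  K_card := by decide +kernel
  K_sp := by decide +kernel
  G_card := by
    have h : ∀ i, ∀ T ∈ s7G i, T.card = 2 := by decide +kernel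
    intro i T hT
    exact ⟨1, by rw [h i T hT]; norm_num⟩
  G_sp := by decide +kernel
  bij := s7_bij

end Pool.Agent.H236R2.HB
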